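import Pool.Agent.D0H72.SC.Three

/-!
MP_c6d336_gt, Q1: the exact value `N = 3` of the uniform conjugate-product length.

The lower bound `3 ≤ N` is `SphereHomeo823.main` (file `AtLeastThree`). Upper bound: for all
`A, B ≠ 1` in `G` some conjugate `A'` of `A` is such that `A' B` is conjugate to the standard
contraction `T0 : z ↦ z / 2` of the sphere. Applied to `(A, A)` and to `(A⁻¹, B)` this gives
`A' A ~ T0 ~ A'' B` with `A' ~ A` and `A'' ~ A⁻¹`, so that `B` is a product of three conjugates
of `A`.
-/

set_option autoImplicit false

namespace Pool.Agent.Results.MP_c6d336_gt.ExactValue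

open SphereHomeo823

/-- The least `n ≥ 1` with the property `P(n)` is `3`: in the group `G` of the homeomorphisms of
the 2-sphere isotopic to the identity, for all `A, B ≠ 1` the element `B` is a product of three
`Homeo(S²)`-conjugates of `A`, and `3` is optimal. That is, `N = 3`. -/
theorem result : IsLeast {n : ℕ | 1 ≤ n ∧ P n} 3 :=
  ⟨⟨by norm_num, Pool.Agent.D0H72.SC.P_three⟩, fun n hn => SphereHomeo823.main n hn.1 hn.2⟩

end Pool.Agent.Results.MP_c6d336_gt.ExactValue
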